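import Pool.Agent.helper18.HG.Spec

set_option autoImplicit false

namespace Pool.Agent.helper18.HG

open Finset

theorem NRM_inj (x : Polynomial ℤ) (h : Polynomial.coeToPowerSeries.ringHom x = (0 : PowerSeries ℤ)) :
    x = 0 := by
  rw [Polynomial.coeToPowerSeries.ringHom_apply] at h
  exact Polynomial.coe_eq_zero_iff.1 h

theorem NRM : NRM_stmt := by
  intro G A hA h
  have hdeg : 1 ≤ A.natDegree := by
    rcases Nat.eq_zero_or_pos A.natDegree with h0 | h0
    · exfalso
      rw [Polynomial.natDegree_eq_zero] at h0
      obtain ⟨a, rfl⟩ := h0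
      unfold ev at h
      rw [Polynomial.eval₂_C] at h
      apply hA
      rw [NRM_inj a h, Polynomial.C_0]
    · exact h0
  refine ⟨A.leadingCoeff, A.integralNormalization, Polynomial.leadingCoeff_ne_zero.2 hA,
    Polynomial.monic_integralNormalization hA, ?_, ?_⟩
  · rw [Polynomial.natDegree_integralNormalization]
    exact hdeg
  · unfold ev at h ⊢
    have h1 := Polynomial.integralNormalization_eval₂_eq_zero
      (Polynomial.coeToPowerSeries.ringHom (R := ℤ)) h NRM_inj
    rw [Polynomial.coeToPowerSeries.ringHom_apply] at h1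
    exact h1

end Pool.Agent.helper18.HG
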