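import Pool.Agent.helper18.HG.Spec

set_option autoImplicit false

namespace Pool.Agent.helper18.HG

open Finset

theorem TAY_coeff (P : Polynomial ℤ) (d : ℕ) (H : ℝ) (hd : P.natDegree ≤ d)
    (hH : ∀ i, |(P.coeff i : ℝ)| ≤ H) (j : ℕ) :
    |(((Polynomial.taylor (1 : ℤ) P).coeff j : ℤ) : ℝ)| ≤ ((d : ℝ) + 1) * (2 ^ d * H) := by
  have hH0 : 0 ≤ H := (abs_nonneg _).trans (hH 0)
  have h1 : (Polynomial.taylor (1 : ℤ) P).coeff j = ∑ i ∈ range (d + 1), (i.choose j : ℤ) * P.coeff i := by
    rw [Polynomial.taylor_coeff, Polynomial.hasseDeriv_apply, Polynomial.sum_def,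
      Polynomial.eval_finsetSum]
    rw [← Finset.sum_subset (Polynomial.supp_subset_range (by omega : P.natDegree < d + 1))]
    · refine Finset.sum_congr rfl fun i _ => ?_
      rw [Polynomial.eval_monomial, one_pow, mul_one]
    · intro i _ hi
      rw [Polynomial.notMem_support_iff.1 hi, mul_zero]
  rw [h1]
  push_cast
  refine (Finset.abs_sum_le_sum_abs _ _).trans ?_
  calc ∑ i ∈ range (d + 1), |((i.choose j : ℕ) : ℝ) * (P.coeff i : ℝ)|
      ≤ ∑ _i ∈ range (d + 1), (2 ^ d * H) := by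
        refine Finset.sum_le_sum fun i hi => ?_
        rw [mem_range] at hi
        rw [abs_mul, abs_of_nonneg (Nat.cast_nonneg _)]
        have h2 : ((i.choose j : ℕ) : ℝ) ≤ 2 ^ d := by
          have h3 : i.choose j ≤ 2 ^ d :=
            (Nat.choose_le_two_pow i j).trans (Nat.pow_le_pow_right (by norm_num) (by omega))
          calc ((i.choose j : ℕ) : ℝ) ≤ ((2 ^ d : ℕ) : ℝ) := by exact_mod_cast h3
            _ = 2 ^ d := by push_cast; ring
        exact mul_le_mul h2 (hH i) (abs_nonneg _) (by positivity)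
    _ = ((d : ℝ) + 1) * (2 ^ d * H) := by
        rw [sum_const, card_range, nsmul_eq_mul]
        push_cast
        ring

theorem TAY : TAY_stmt := by
  intro P d H δ hP hd hH hδ hδ1 hsmall
  have hH0 : 0 ≤ H := (abs_nonneg _).trans (hH 0)
  set q := Polynomial.taylor (1 : ℤ) P with hq
  have hq0 : q ≠ 0 := by
    intro h
    apply hP
    apply Polynomial.taylor_injective (1 : ℤ)
    rw [← hq, h, map_zero]
  have hqd : q.natDegree ≤ d := by
    rw [hq, Polynomial.natDegree_taylor]
    exact hd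
  have hqB : ∀ j, |(q.coeff j : ℝ)| ≤ ((d : ℝ) + 1) * (2 ^ d * H) := TAY_coeff P d H hd hH
  have hev : Polynomial.aeval (1 - δ) P = Polynomial.aeval (-δ) q := by
    have h1 : Polynomial.aeval (-δ) (Polynomial.X + Polynomial.C (1 : ℤ)) = 1 - δ := by
      rw [map_add, Polynomial.aeval_X, Polynomial.aeval_C, map_one]
      ring
    rw [hq, Polynomial.taylor_apply, Polynomial.aeval_comp, h1]
  intro h0
  rw [hev, Polynomial.aeval_eq_sum_range' (show q.natDegree < d + 1 by omega)] at h0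
  have hex : ∃ j, q.coeff j ≠ 0 := by
    by_contra hno
    push Not at hno
    exact hq0 (Polynomial.ext fun j => by rw [hno j, Polynomial.coeff_zero])
  classical
  set m := Nat.find hex with hm
  have hm1 : q.coeff m ≠ 0 := Nat.find_spec hex
  have hm2 : ∀ i, i < m → q.coeff i = 0 := fun i hi => by
    have := Nat.find_min hex hi
    push Not at this
    exact this
  have hmd : m ≤ d := (Polynomial.le_natDegree_of_ne_zero hm1).trans hqd
  have hmem : m ∈ range (d + 1) := mem_range.2 (by omega)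
  rw [← Finset.add_sum_erase _ _ hmem] at h0
  have h1 : |(q.coeff m : ℝ)| * δ ^ m = |∑ i ∈ (range (d + 1)).erase m, q.coeff i • (-δ) ^ i| := by
    have : q.coeff m • (-δ) ^ m = - ∑ i ∈ (range (d + 1)).erase m, q.coeff i • (-δ) ^ i := by
      linarith
    have h2 : |q.coeff m • (-δ) ^ m| = |(q.coeff m : ℝ)| * δ ^ m := by
      rw [zsmul_eq_mul, abs_mul, abs_pow, abs_neg, abs_of_pos hδ]
    rw [← h2, this, abs_neg]
  have h3 : |∑ i ∈ (range (d + 1)).erase m, q.coeff i • (-δ) ^ i| ≤
      d * ((((d : ℝ) + 1) * (2 ^ d * H)) * δ ^ (m + 1)) := by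
    refine (Finset.abs_sum_le_sum_abs _ _).trans ?_
    calc ∑ i ∈ (range (d + 1)).erase m, |q.coeff i • (-δ) ^ i|
        ≤ ∑ _i ∈ (range (d + 1)).erase m, (((d : ℝ) + 1) * (2 ^ d * H)) * δ ^ (m + 1) := by
          refine Finset.sum_le_sum fun i hi => ?_
          have hne := ne_of_mem_erase hi
          rw [zsmul_eq_mul, abs_mul, abs_pow, abs_neg, abs_of_pos hδ]
          rcases lt_or_gt_of_ne hne with h | h
          · rw [hm2 i h]
            push_cast
            rw [abs_zero, zero_mul]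
            positivity
          · exact mul_le_mul (hqB i) (pow_le_pow_of_le_one hδ.le hδ1 h) (by positivity)
              (by positivity)
      _ = d * ((((d : ℝ) + 1) * (2 ^ d * H)) * δ ^ (m + 1)) := by
          rw [sum_const, card_erase_of_mem hmem, card_range, nsmul_eq_mul]
          simp
  have h4 : (1 : ℝ) ≤ |(q.coeff m : ℝ)| := by
    have : (1 : ℤ) ≤ |q.coeff m| := Int.one_le_abs hm1
    exact_mod_cast this
  have hδm : 0 < δ ^ m := by positivity
  have h5 : δ ^ m ≤ d * ((((d : ℝ) + 1) * (2 ^ d * H)) * δ ^ (m + 1)) := by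
    have : 1 * δ ^ m ≤ |(q.coeff m : ℝ)| * δ ^ m := mul_le_mul_of_nonneg_right h4 hδm.le
    linarith
  have h6 : (d : ℝ) * ((((d : ℝ) + 1) * (2 ^ d * H)) * δ ^ (m + 1)) =
      (d * (((d : ℝ) + 1) * (2 ^ d * H)) * δ) * δ ^ m := by
    rw [pow_succ]
    ring
  rw [h6] at h5
  have h7 : (1 : ℝ) ≤ d * (((d : ℝ) + 1) * (2 ^ d * H)) * δ := by
    by_contra hcon
    push Not at hcon
    have := mul_lt_mul_of_pos_right hcon hδm
    linarith
  have h8 : (d : ℝ) * (((d : ℝ) + 1) * (2 ^ d * H)) * δ ≤ ((d : ℝ) + 1) ^ 2 * 2 ^ d * H * δ := by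
    have h9 : 0 ≤ (((d : ℝ) + 1) * (2 ^ d * H)) * δ := by positivity
    nlinarith
  linarith

end Pool.Agent.helper18.HG
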